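import Pool.Agent.Helper3.TW.ClBad
import Pool.Agent.Helper65.TW.Defs2

/-! T2: the ring of the numbers which are integral at the bad places. -/

set_option autoImplicit false

namespace Pool.Agent.Helper3.TW

open NumberField Pool.Agent.Helper4.CB Pool.Agent.Helper69.CB Pool.Agent.Helper65.TW
open Pool.Agent.Helper65.CL (Bad)

theorem bi_eq (L : Type) [Field L] [NumberField L] (Λ : Finset ℕ) (J : ℕ) :
    BI L Λ J = intB (L := L) (Bad Λ J) := SetLike.ext fun _ => Iff.rfl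

/-- **T2** -/
theorem bi_pid (L : Type) [Field L] [NumberField L] {Λ : Finset ℕ} (hΛ : ∀ l ∈ Λ, l.Prime) :
    ∃ J0 : ℕ, ∀ J, J0 ≤ J → IsPrincipalIdealRing (BI L Λ J) := by
  obtain ⟨J0, hJ0⟩ := isPrincipal_bad L (fun l hl => (hΛ l hl).two_le)
  refine ⟨J0, fun J hJ => ?_⟩
  rw [bi_eq]
  exact hJ0 J hJ

/-- **T2b** -/
theorem bi_frac (L : Type) [Field L] [NumberField L] (Λ : Finset ℕ) (J : ℕ) (x : L) :
    ∃ b ∈ BI L Λ J, ∃ c ∈ BI L Λ J, c ≠ 0 ∧ x = b / c := by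
  obtain ⟨⟨n, d⟩, hnd⟩ := IsLocalization.surj (nonZeroDivisors (𝓞 L)) x
  have hd : ((d : 𝓞 L) : L) ≠ 0 := fun h =>
    nonZeroDivisors.ne_zero d.2 (RingOfIntegers.coe_eq_zero_iff.1 h)
  refine ⟨(n : L), ?_, ((d : 𝓞 L) : L), ?_, hd, ?_⟩
  · rw [bi_eq]
    exact int_mem _ n
  · rw [bi_eq]
    exact int_mem _ _
  · rw [eq_div_iff hd]
    exact hnd

end Pool.Agent.Helper3.TW
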