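import Pool.Agent.Helper3.TW.Pid
import Pool.Agent.Helper56.CL.TriF

/-! The bad places avoid representatives of all ideal classes. -/

set_option autoImplicit false

namespace Pool.Agent.Helper3.TW

open IsDedekindDomain NumberField WithZero Pool.Agent.Helper4.CB Pool.Agent.Helper69.CB

theorem clOK_bad (L : Type) [Field L] [NumberField L] {Λ : Finset ℕ} (hΛ : ∀ l ∈ Λ, 2 ≤ l) :
    ∃ J0 : ℕ, ∀ J, J0 ≤ J → ClOK (L := L) (Pool.Agent.Helper65.CL.Bad Λ J) := by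
  classical
  choose I hI using ClassGroup.mk0_surjective (R := 𝓞 L)
  have hx : ∀ c, ∃ x ∈ (I c : Ideal (𝓞 L)), x ≠ 0 := fun c =>
    Submodule.exists_mem_ne_zero_of_ne_bot (nonZeroDivisors.ne_zero (I c).2)
  choose x hx hx0 using hx
  obtain ⟨J0, hJ0⟩ := Pool.Agent.Helper56.CL.start L hΛ
    (Finset.univ.image fun c => algebraMap (𝓞 L) L (x c)) 0
  refine ⟨J0, fun J hJ c => ⟨I c, hI c, fun w hw hle => ?_⟩⟩
  have h8 := (hJ0 J hJ w hw).2 (algebraMap (𝓞 L) L (x c))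
    (Finset.mem_image_of_mem _ (Finset.mem_univ c))
    (by
      rw [Ne, FaithfulSMul.algebraMap_eq_zero_iff]
      exact hx0 c)
  have h9 := (w.valuation_lt_one_iff_mem (K := L) (x c)).2 (hle (hx c))
  exact absurd h8 (ne_of_lt h9)

/-- **T2 for the bad places.** -/
theorem isPrincipal_bad (L : Type) [Field L] [NumberField L] {Λ : Finset ℕ} (hΛ : ∀ l ∈ Λ, 2 ≤ l) :
    ∃ J0 : ℕ, ∀ J, J0 ≤ J →
      IsPrincipalIdealRing (intB (L := L) (Pool.Agent.Helper65.CL.Bad Λ J)) := by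
  obtain ⟨J0, hJ0⟩ := clOK_bad L hΛ
  exact ⟨J0, fun J hJ => isPrincipal_intB (hJ0 J hJ)⟩

end Pool.Agent.Helper3.TW
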