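import Mathlib

/-! Integral conjugates over principal ideal domains. -/

set_option autoImplicit false

namespace Pool.Agent.Helper3.TW

open Module

/-- **T3.** -/
theorem exists_conj {L : Type} [Field L] (B : Subring L) [IsPrincipalIdealRing B]
    [IsFractionRing B L] {m : ℕ} {κ : Type} [Finite κ] (a : κ → Matrix (Fin m) (Fin m) L)
    (h1 : ∃ j, a j = 1)
    (hmul : ∀ i j, ∃ c : κ → L, (∀ k, c k ∈ B) ∧ a i * a j = ∑ᶠ k, c k • a k) :
    ∃ U V : Matrix (Fin m) (Fin m) L, U * V = 1 ∧ V * U = 1 ∧ ∀ j p q, (U * a j * V) p q ∈ B := by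
  classical
  have := Fintype.ofFinite κ
  obtain ⟨j0, hj0⟩ := h1
  set P : Submodule B (Fin m → L) :=
    Submodule.span B (Set.range fun s : κ × Fin m => (a s.1).mulVec (Pi.single s.2 1)) with hP
  have hfin : Module.Finite B P := by
    rw [Module.Finite.iff_fg, hP]
    exact Submodule.fg_span (Set.finite_range _)
  have htf : Module.IsTorsionFree B P := by
    refine ⟨fun r hr x y hxy => ?_⟩
    have hr0 : (r : L) ≠ 0 := by
      intro h
      exact hr.ne_zero (Subtype.ext h)
    apply Subtype.ext
    funext i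
    have h2 : (r : L) * (x : Fin m → L) i = (r : L) * (y : Fin m → L) i :=
      congrFun (congrArg (Subtype.val : P → (Fin m → L)) hxy) i
    exact mul_left_cancel₀ hr0 h2
  have hfree : Module.Free B P := Module.free_of_finite_type_torsion_free'
  -- stable
  have hstab : ∀ j, ∀ x ∈ P, (a j).mulVec x ∈ P := by
    intro j x hx
    rw [hP] at hx
    induction hx using Submodule.span_induction with
    | mem x hx =>
      obtain ⟨⟨i, q⟩, rfl⟩ := hx
      obtain ⟨c, hc, hc'⟩ := hmul j i
      simp only
      rw [Matrix.mulVec_mulVec, hc', finsum_eq_sum_of_fintype, Matrix.sum_mulVec]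
      refine Submodule.sum_mem _ fun k _ => ?_
      rw [Matrix.smul_mulVec]
      have : c k • (a k).mulVec (Pi.single q 1) =
          (⟨c k, hc k⟩ : B) • (a k).mulVec (Pi.single q 1) := rfl
      rw [this]
      exact Submodule.smul_mem _ _ (Submodule.subset_span ⟨(k, q), rfl⟩)
    | zero =>
      rw [Matrix.mulVec_zero]
      exact Submodule.zero_mem _
    | add x y _ _ hx hy =>
      rw [Matrix.mulVec_add]
      exact Submodule.add_mem _ hx hy
    | smul b x _ hx =>
      have : (a j).mulVec (b • x) = b • (a j).mulVec x := Matrix.mulVec_smul _ (b : L) x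
      rw [this]
      exact Submodule.smul_mem _ _ hx
  -- a basis
  set bP := Module.finBasis B P with hbP
  set v : Fin (finrank B P) → (Fin m → L) := fun i => (bP i : Fin m → L) with hv
  have hliB : LinearIndependent B v :=
    bP.linearIndependent.map' P.subtype (Submodule.ker_subtype P)
  have hli : LinearIndependent L v := (LinearIndependent.iff_fractionRing B L).1 hliB
  have hmemspan : ∀ x ∈ P, ∃ c : Fin (finrank B P) → B, x = ∑ i, (c i : L) • v i := by
    intro x hx
    refine ⟨fun i => bP.repr ⟨x, hx⟩ i, ?_⟩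
    have h2 := bP.sum_repr ⟨x, hx⟩
    have h3 : ((∑ i, bP.repr ⟨x, hx⟩ i • bP i : P) : Fin m → L) = x :=
      congrArg (Subtype.val : P → (Fin m → L)) h2
    rw [Submodule.coe_sum] at h3
    exact h3.symm
  have hspan : ⊤ ≤ Submodule.span L (Set.range v) := by
    intro x _
    have hx : x = ∑ q, x q • (Pi.single q 1 : Fin m → L) := by
      funext i
      simp [Finset.sum_apply, Pi.single_apply]
    rw [hx]
    refine Submodule.sum_mem _ fun q _ => Submodule.smul_mem _ _ ?_
    have hq : (Pi.single q 1 : Fin m → L) ∈ P := by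
      rw [hP]
      refine Submodule.subset_span ⟨(j0, q), ?_⟩
      simp only
      rw [hj0, Matrix.one_mulVec]
    obtain ⟨c, hc⟩ := hmemspan _ hq
    rw [hc]
    exact Submodule.sum_mem _ fun i _ =>
      Submodule.smul_mem _ _ (Submodule.subset_span ⟨i, rfl⟩)
  set b0 : Basis (Fin (finrank B P)) L (Fin m → L) := Basis.mk hli hspan with hb0
  have hcard : finrank B P = m := by
    have h4 := Module.finrank_eq_card_basis b0
    rw [Module.finrank_fin_fun, Fintype.card_fin] at h4
    exact h4.symm
  set e : Fin (finrank B P) ≃ Fin m := finCongr hcard with he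
  set b : Basis (Fin m) L (Fin m → L) := b0.reindex e with hb
  have hbmem : ∀ q, b q ∈ P := by
    intro q
    rw [hb, Basis.reindex_apply, hb0, Basis.mk_apply]
    exact (bP _).2
  have hrepr : ∀ x ∈ P, ∀ p, b.repr x p ∈ B := by
    intro x hx p
    obtain ⟨c, hc⟩ := hmemspan x hx
    have h5 : b0.repr x = ∑ i, (c i : L) • Finsupp.single i (1 : L) := by
      conv_lhs => rw [hc]
      rw [map_sum]
      refine Finset.sum_congr rfl fun i _ => ?_
      rw [map_smul]
      have : v i = b0 i := by rw [hb0, Basis.mk_apply]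
      rw [this, Basis.repr_self]
    have h6 : b.repr x p = b0.repr x (e.symm p) := by
      rw [hb, Basis.repr_reindex_apply]
    rw [h6, h5, Finsupp.finsetSum_apply]
    simp only [Finsupp.smul_single, smul_eq_mul, mul_one, Finsupp.single_apply,
      Finset.sum_ite_eq', Finset.mem_univ, if_true]
    exact (c _).2
  refine ⟨b.toMatrix (Pi.basisFun L (Fin m)), (Pi.basisFun L (Fin m)).toMatrix b,
    Basis.toMatrix_mul_toMatrix_flip _ _, Basis.toMatrix_mul_toMatrix_flip _ _, ?_⟩
  intro j p q
  have h7 : (b.toMatrix (Pi.basisFun L (Fin m)) * a j * (Pi.basisFun L (Fin m)).toMatrix b) p q =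
      b.repr ((a j).mulVec (b q)) p := by
    have h8 : ∀ x : Fin m → L, (b.toMatrix (Pi.basisFun L (Fin m))).mulVec x = ⇑(b.repr x) := by
      intro x
      have h9 := (Pi.basisFun L (Fin m)).toMatrix_mulVec_repr b x
      have h10 : ⇑((Pi.basisFun L (Fin m)).repr x) = x := by
        funext i
        simp
      rw [h10] at h9
      exact h9
    have h11 : ((Pi.basisFun L (Fin m)).toMatrix b).mulVec (Pi.single q 1) = b q := by
      rw [Matrix.mulVec_single_one]
      funext i
      simp [Basis.toMatrix_apply]
    rw [← h8]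
    have h12 : ∀ M : Matrix (Fin m) (Fin m) L, M p q = M.mulVec (Pi.single q 1) p := by
      intro M
      rw [Matrix.mulVec_single_one]
      rfl
    refine (h12 (_ * _ * _)).trans ?_
    rw [← Matrix.mulVec_mulVec, ← Matrix.mulVec_mulVec, h11]
  rw [h7]
  exact hrepr _ (hstab j _ (hbmem q)) p

end Pool.Agent.Helper3.TW
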