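import Pool.Agent.Helper65.CB.Dom

/-! Potential density passes along injective homomorphisms of algebras. -/

set_option autoImplicit false

namespace Pool.Agent.Helper3.TW

open AlgebraicGeometry CategoryTheory Pool.Agent.Helper15 Pool.Agent.Helper65.CB

theorem isDominant_map {A B : Type} [CommRing A] [CommRing B] (f : A →+* B)
    (hf : Function.Injective f) : IsDominant (Spec.map (CommRingCat.ofHom f)) := by
  refine ⟨?_⟩
  have h : DenseRange (PrimeSpectrum.comap f) := by
    rw [PrimeSpectrum.denseRange_comap_iff_ker_le_nilRadical, (RingHom.injective_iff_ker_eq_bot f).1 hf]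
    exact bot_le
  exact h

theorem dominated_of_injective {K : Type} [Field K] {R0 R : Type} [CommRing R0] [Algebra K R0]
    [CommRing R] [Nontrivial R] [Algebra K R] (j : R0 →ₐ[K] R) (hj : Function.Injective j) :
    DominatedOver K (Spec (CommRingCat.of R0)) (Spec (CommRingCat.of R))
      (Spec.map (CommRingCat.ofHom (algebraMap K R0)))
      (Spec.map (CommRingCat.ofHom (algebraMap K R))) := by
  refine ⟨Spec (CommRingCat.of R), Spec.map (CommRingCat.ofHom (j : R0 →+* R)), 𝟙 _,
    isDominant_map _ hj, inferInstance, ?_, ?_⟩
  · exact inferInstanceAs (Nonempty (PrimeSpectrum R))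
  · rw [Category.id_comp, ← Spec.map_comp, ← CommRingCat.ofHom_comp]
    congr 2
    exact j.comp_algebraMap

/-- **Q4** -/
theorem pd_of_injective {K : Type} [Field K] {R0 R : Type} [CommRing R0] [Algebra K R0]
    [CommRing R] [Nontrivial R] [Algebra K R] (j : R0 →ₐ[K] R) (hj : Function.Injective j)
    (h : PotentiallyDense K (Spec (CommRingCat.of R))
      (Spec.map (CommRingCat.ofHom (algebraMap K R)))) :
    PotentiallyDense K (Spec (CommRingCat.of R0))
      (Spec.map (CommRingCat.ofHom (algebraMap K R0))) :=
  PotentiallyDense.of_dominated (dominated_of_injective j hj) h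

end Pool.Agent.Helper3.TW
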