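import Mathlib

/-! Elements of a number field which are integral at the places of a set which avoids
representatives of all ideal classes form a principal ideal ring. -/

set_option autoImplicit false

namespace Pool.Agent.Helper3.TW

open IsDedekindDomain NumberField WithZero

variable {L : Type} [Field L] [NumberField L]

/-- the ring of the elements of `L` which are integral at the places of `bad` -/
def intB (bad : HeightOneSpectrum (𝓞 L) → Prop) : Subring L where
  carrier := {x | ∀ w, bad w → w.valuation L x ≤ 1}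
  mul_mem' := by
    intro a b ha hb w hw
    rw [map_mul]
    exact mul_le_one' (ha w hw) (hb w hw)
  one_mem' := by
    intro w _
    rw [map_one]
  add_mem' := by
    intro a b ha hb w hw
    exact Valuation.map_add_le _ (ha w hw) (hb w hw)
  zero_mem' := by
    intro w _
    rw [map_zero]
    exact zero_le
  neg_mem' := by
    intro a ha w hw
    rw [Valuation.map_neg]
    exact ha w hw

theorem mem_intB (bad : HeightOneSpectrum (𝓞 L) → Prop) (x : L) :
    x ∈ intB bad ↔ ∀ w, bad w → w.valuation L x ≤ 1 := Iff.rfl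

theorem int_mem (bad : HeightOneSpectrum (𝓞 L) → Prop) (x : 𝓞 L) : (x : L) ∈ intB bad :=
  fun w _ => w.valuation_le_one x

/-- representatives of the ideal classes which are prime to the bad places -/
def ClOK (bad : HeightOneSpectrum (𝓞 L) → Prop) : Prop :=
  ∀ c : ClassGroup (𝓞 L), ∃ I : nonZeroDivisors (Ideal (𝓞 L)), ClassGroup.mk0 I = c ∧
    ∀ w : HeightOneSpectrum (𝓞 L), bad w → ¬ (I : Ideal (𝓞 L)) ≤ w.asIdeal

variable {bad : HeightOneSpectrum (𝓞 L) → Prop}

/-- an element of an ideal which generates it at the bad places -/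
theorem exists_gen (hcl : ClOK bad) (A : Ideal (𝓞 L)) (hA : A ≠ ⊥) :
    ∃ α ∈ A, α ≠ 0 ∧ ∀ w, bad w → ∀ a ∈ A, w.valuation L (a : L) ≤ w.valuation L (α : L) := by
  obtain ⟨A', hA'⟩ : ∃ A' : nonZeroDivisors (Ideal (𝓞 L)), (A' : Ideal (𝓞 L)) = A :=
    ⟨⟨A, mem_nonZeroDivisors_iff_ne_zero.2 hA⟩, rfl⟩
  obtain ⟨I, hI, hIb⟩ := hcl (ClassGroup.mk0 A')⁻¹
  have h1 : ClassGroup.mk0 (A' * I) = 1 := by
    rw [map_mul, hI, mul_inv_cancel]
  have hPP : ((A' * I : nonZeroDivisors (Ideal (𝓞 L))) : Ideal (𝓞 L)) = A * (I : Ideal (𝓞 L)) := by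
    rw [Submonoid.coe_mul, hA']
  generalize A' * I = P at h1 hPP
  obtain ⟨P, hP⟩ := P
  have h2 := (ClassGroup.mk0_eq_one_iff hP).1 h1
  obtain ⟨α, hα⟩ := h2.principal
  have hα' : A * (I : Ideal (𝓞 L)) = Ideal.span {α} := by
    rw [← hPP]
    exact hα
  have hAI : A * (I : Ideal (𝓞 L)) ≠ ⊥ := by
    rw [← hPP]
    have hP0 := mem_nonZeroDivisors_iff_ne_zero.1 hP
    rwa [Ideal.zero_eq_bot] at hP0
  refine ⟨α, ?_, ?_, ?_⟩
  · have : α ∈ A * (I : Ideal (𝓞 L)) := by
      rw [hα']
      exact Ideal.mem_span_singleton_self α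
    have hle : A * (I : Ideal (𝓞 L)) ≤ A := Ideal.mul_le_left
    exact hle this
  · rintro rfl
    apply hAI
    rw [hα']
    exact Ideal.span_singleton_eq_bot.2 rfl
  · intro w hw a ha
    obtain ⟨y, hy, hyw⟩ := SetLike.not_le_iff_exists.1 (hIb w hw)
    have h3 : a * y ∈ Ideal.span {α} := by
      rw [← hα']
      exact Ideal.mul_mem_mul ha hy
    obtain ⟨z, hz⟩ := Ideal.mem_span_singleton'.1 h3
    have h4 : w.valuation L (y : L) = 1 := by
      refine le_antisymm (w.valuation_le_one y) ?_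
      by_contra hlt
      exact hyw ((w.valuation_lt_one_iff_mem y).1 (not_le.1 hlt))
    have hm : ∀ x y : 𝓞 L, w.valuation L ((x * y : 𝓞 L) : L) =
        w.valuation L (x : L) * w.valuation L (y : L) := fun x y => by
      rw [← map_mul (w.valuation L)]
      rfl
    calc w.valuation L (a : L) = w.valuation L (a : L) * w.valuation L (y : L) := by
          rw [h4, mul_one]
      _ = w.valuation L ((z * α : 𝓞 L) : L) := by rw [hz, hm]
      _ = w.valuation L (z : L) * w.valuation L (α : L) := hm z α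
      _ ≤ 1 * w.valuation L (α : L) := mul_le_mul_left (w.valuation_le_one z) _
      _ = w.valuation L (α : L) := one_mul _

/-- denominators prime to the bad places -/
theorem exists_den (hcl : ClOK bad) (b : L) (hb : b ∈ intB bad) :
    ∃ s r : 𝓞 L, (∀ w, bad w → w.valuation L (s : L) = 1) ∧ s ≠ 0 ∧ (s : L) * b = (r : L) := by
  classical
  by_cases hb0 : b = 0
  · exact ⟨1, 0, fun w _ => by simp, one_ne_zero, by simp [hb0]⟩
  have hS := HeightOneSpectrum.Support.finite (𝓞 L) b
  have hn : ∀ v : HeightOneSpectrum (𝓞 L), ∃ n : ℕ, v.valuation L b ≤ exp (n : ℤ) := by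
    intro v
    have h0 : v.valuation L b ≠ 0 := (v.valuation L).ne_zero_iff.2 hb0
    obtain ⟨k, hk⟩ : ∃ k : ℤ, v.valuation L b = exp k := ⟨log _, (exp_log h0).symm⟩
    refine ⟨k.toNat, ?_⟩
    rw [hk, exp_le_exp]
    omega
  choose n hn using hn
  set J : Ideal (𝓞 L) := ∏ v ∈ hS.toFinset, v.asIdeal ^ n v with hJ
  have hJ0 : J ≠ ⊥ := by
    rw [hJ, ← Ideal.zero_eq_bot, Finset.prod_ne_zero_iff]
    intro v _
    exact pow_ne_zero _ v.ne_bot
  obtain ⟨s, hsJ, hs0, hs⟩ := exists_gen hcl J hJ0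
  have hsb : ∀ w, bad w → w.valuation L (s : L) = 1 := by
    intro w hw
    refine le_antisymm (w.valuation_le_one s) ?_
    have h1 : ¬ J ≤ w.asIdeal := by
      intro hle
      rw [hJ, Ideal.IsPrime.prod_le w.isPrime] at hle
      obtain ⟨v, hv, hvw⟩ := hle
      have h2 : v.asIdeal ≤ w.asIdeal := Ideal.IsPrime.le_of_pow_le hvw
      have h3 : v.asIdeal = w.asIdeal := v.isMaximal.eq_of_le w.isPrime.ne_top h2
      have h4 : v = w := HeightOneSpectrum.ext h3
      subst h4
      have h5 : 1 < v.valuation L b := (hS.mem_toFinset.1 hv)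
      exact absurd (hb v hw) (not_le.2 h5)
    obtain ⟨a, ha, haw⟩ := SetLike.not_le_iff_exists.1 h1
    have h6 : w.valuation L (a : L) = 1 := by
      refine le_antisymm (w.valuation_le_one a) ?_
      by_contra hlt
      exact haw ((w.valuation_lt_one_iff_mem a).1 (not_le.1 hlt))
    rw [← h6]
    exact hs w hw a ha
  have hint : ∀ v : HeightOneSpectrum (𝓞 L), v.valuation L ((s : L) * b) ≤ 1 := by
    intro v
    rw [map_mul]
    by_cases hv : v ∈ hS.toFinset
    · have h7 : v.valuation L (s : L) ≤ exp (-(n v : ℤ)) := by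
        rw [HeightOneSpectrum.valuation_of_algebraMap,
          HeightOneSpectrum.intValuation_le_pow_iff_mem]
        exact Ideal.le_of_dvd (Finset.dvd_prod_of_mem (fun v => v.asIdeal ^ n v) hv) hsJ
      calc v.valuation L (s : L) * v.valuation L b ≤ exp (-(n v : ℤ)) * exp (n v : ℤ) :=
            mul_le_mul' h7 (hn v)
        _ = 1 := by rw [← exp_add, neg_add_cancel, exp_zero]
    · have h8 : v.valuation L b ≤ 1 := by
        by_contra hcon
        exact hv (hS.mem_toFinset.2 (not_le.1 hcon))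
      exact mul_le_one' (v.valuation_le_one s) h8
  obtain ⟨r, hr⟩ := HeightOneSpectrum.mem_integers_of_valuation_le_one L _ hint
  exact ⟨s, r, hsb, hs0, hr.symm⟩

theorem isFractionRing_intB : IsFractionRing (intB bad) L where
  map_units y := by
    rw [isUnit_iff_ne_zero]
    have := nonZeroDivisors.ne_zero y.2
    intro h
    exact this (Subtype.ext h)
  surj x := by
    obtain ⟨⟨n, d⟩, hnd⟩ := IsLocalization.surj (nonZeroDivisors (𝓞 L)) x
    refine ⟨⟨⟨(n : L), int_mem bad n⟩, ⟨⟨((d : 𝓞 L) : L), int_mem bad _⟩, ?_⟩⟩, hnd⟩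
    rw [mem_nonZeroDivisors_iff_ne_zero]
    intro h
    have h1 : (((d : 𝓞 L)) : L) = 0 := congrArg Subtype.val h
    exact nonZeroDivisors.ne_zero d.2 (RingOfIntegers.coe_eq_zero_iff.1 h1)
  exists_of_eq {x y} h := ⟨1, by rw [Subtype.ext h]⟩

/-- **T2.** -/
theorem isPrincipal_intB (hcl : ClOK bad) : IsPrincipalIdealRing (intB bad) where
  principal Q := by
    by_cases hQ : Q = ⊥
    · rw [hQ]
      exact ⟨⟨0, by simp⟩⟩
    set i : 𝓞 L →+* intB bad :=
      (algebraMap (𝓞 L) L).codRestrict (intB bad) (fun x => int_mem bad x) with hi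
    set A : Ideal (𝓞 L) := Q.comap i with hA
    have hden : ∀ q ∈ Q, ∃ a ∈ A, ∃ s : 𝓞 L, (∀ w, bad w → w.valuation L (s : L) = 1) ∧ s ≠ 0 ∧
        (s : L) * (q : L) = (a : L) := by
      intro q hq
      obtain ⟨s, r, hs1, hs2, hs3⟩ := exists_den hcl (q : L) q.2
      refine ⟨r, ?_, s, hs1, hs2, hs3⟩
      show i r ∈ Q
      have : i r = i s * q := Subtype.ext hs3.symm
      rw [this]
      exact Q.mul_mem_left _ hq
    have hA0 : A ≠ ⊥ := by
      obtain ⟨q, hq, hq0⟩ := Submodule.exists_mem_ne_zero_of_ne_bot hQ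
      obtain ⟨a, ha, s, _, hs2, hs3⟩ := hden q hq
      intro h
      rw [h, Ideal.mem_bot] at ha
      rw [ha] at hs3
      rcases mul_eq_zero.1 (hs3.trans (map_zero (algebraMap (𝓞 L) L))) with h1 | h1
      · exact hs2 (RingOfIntegers.coe_eq_zero_iff.1 h1)
      · exact hq0 (Subtype.ext h1)
    obtain ⟨α, hαA, hα0, hα⟩ := exists_gen hcl A hA0
    have hαL : (α : L) ≠ 0 := fun h => hα0 (RingOfIntegers.coe_eq_zero_iff.1 h)
    refine ⟨⟨i α, le_antisymm ?_ ?_⟩⟩
    · intro q hq
      obtain ⟨a, ha, s, hs1, hs2, hs3⟩ := hden q hq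
      have hmem : (q : L) / (α : L) ∈ intB bad := by
        intro w hw
        rw [map_div₀]
        refine div_le_one_of_le₀ ?_ zero_le
        calc w.valuation L (q : L) = w.valuation L ((s : L) * (q : L)) := by
              rw [map_mul, hs1 w hw, one_mul]
          _ = w.valuation L (a : L) := by rw [hs3]
          _ ≤ _ := hα w hw a ha
      have hq' : q = (⟨(q : L) / (α : L), hmem⟩ : intB bad) * i α :=
        Subtype.ext (div_mul_cancel₀ _ hαL).symm
      rw [hq']
      exact Ideal.mul_mem_left _ _ (Ideal.mem_span_singleton_self _)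
    · rw [Ideal.submodule_span_eq, Ideal.span_singleton_le_iff_mem]
      exact hαA

end Pool.Agent.Helper3.TW
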